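import Pool.Agent.Helper40.RT.Mark
import Pool.Agent.Helper37.RT.PairsOf

/-!
# Project RT, module A8c: few colourings have many edge-disjoint `K_4` with a red edge in `J`
-/

set_option autoImplicit false

open Finset

namespace Pool.Agent.Helper73.RT

theorem bad_c_ncard_iUnion {α ι : Type} [Finite α] (s : Finset ι) (A : ι → Set α) :
    (⋃ i ∈ s, A i).ncard ≤ ∑ i ∈ s, (A i).ncard := by
  classical
  induction s using Finset.induction_on with
  | empty => simp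
  | insert i s hi ih =>
    rw [Finset.sum_insert hi, Finset.set_biUnion_insert]
    exact (Set.ncard_union_le _ _).trans (Nat.add_le_add_left ih _)

/-- the base of the bound for one set -/
theorem bad_c_base (t a l S : ℕ) (ht : 10 ≤ t) (hl : 1 ≤ l) (ha : a = 43200 * l * t ^ 20)
    (hS : (S : ℝ) ≤ (a : ℝ) ^ 2 / 2) :
    Real.exp 1 * ((S : ℝ) * ((t ^ 40 : ℕ) : ℝ) ^ 2) *
      (1 / ((30 * t ^ 20 : ℕ) : ℝ) * (((30 * t : ℕ) : ℝ) / ((30 * t ^ 20 : ℕ) : ℝ)) ^ 5) /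
        ((10 * l * a : ℕ) : ℝ) ≤ 1 / (t : ℝ) ^ 12 := by
  have ht0 : (0 : ℝ) < t := by
    have : (10 : ℝ) ≤ t := by exact_mod_cast ht
    linarith
  have ht1 : (10 : ℝ) ≤ t := by exact_mod_cast ht
  have hl0 : (0 : ℝ) < l := by exact_mod_cast hl
  have ha' : (a : ℝ) = 43200 * l * (t : ℝ) ^ 20 := by rw [ha]; push_cast; ring
  have ha0 : (0 : ℝ) < a := by rw [ha']; positivity
  have he : Real.exp 1 ≤ 2.72 := by
    have := Real.exp_one_lt_d9
    linarith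
  have he0 : 0 < Real.exp 1 := Real.exp_pos 1
  push_cast
  have h1 : (30 * (t : ℝ)) / (30 * (t : ℝ) ^ 20) = 1 / (t : ℝ) ^ 19 := by
    field_simp
  rw [h1]
  have hT : (0 : ℝ) < 10 * l * a := by positivity
  rw [div_le_div_iff₀ hT (by positivity)]
  have h2 : Real.exp 1 * ((S : ℝ) * ((t : ℝ) ^ 40) ^ 2) *
      (1 / (30 * (t : ℝ) ^ 20) * (1 / (t : ℝ) ^ 19) ^ 5) * (t : ℝ) ^ 12 =
      Real.exp 1 * (S : ℝ) / (30 * (t : ℝ) ^ 23) := by
    field_simp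
  rw [h2, div_le_iff₀ (by positivity), one_mul]
  have h3 : Real.exp 1 * (S : ℝ) ≤ 2.72 * ((a : ℝ) ^ 2 / 2) :=
    mul_le_mul he hS (Nat.cast_nonneg _) (by norm_num)
  refine h3.trans ?_
  have h4 : (a : ℝ) ^ 2 = a * (43200 * l * (t : ℝ) ^ 20) := by rw [sq]; nth_rw 2 [ha']
  rw [h4]
  have h5 : (1000 : ℝ) ≤ (t : ℝ) ^ 3 := by
    have := pow_le_pow_left₀ (by norm_num : (0 : ℝ) ≤ 10) ht1 3
    norm_num at this
    linarith
  have h6 : 0 ≤ (a : ℝ) * l * (t : ℝ) ^ 20 := by positivity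
  have h7 : (a : ℝ) * l * (t : ℝ) ^ 20 * 1000 ≤ (a : ℝ) * l * (t : ℝ) ^ 20 * (t : ℝ) ^ 3 :=
    mul_le_mul_of_nonneg_left h5 h6
  have h8 : 10 * (l : ℝ) * a * (30 * (t : ℝ) ^ 23) = 300 * (a * l * (t : ℝ) ^ 20 * (t : ℝ) ^ 3) := by
    ring
  rw [h8]
  nlinarith

theorem bad_c_ell_pos (t : ℕ) : 1 ≤ ell t := Nat.succ_le_succ (Nat.zero_le _)

theorem bad_c_aT_pos {t : ℕ} (ht : 10 ≤ t) : 1 ≤ aT t := by
  have h1 := bad_c_ell_pos t
  have h2 : 0 < t ^ 20 := pow_pos (by omega) _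
  unfold aT
  exact Nat.succ_le_of_lt (Nat.mul_pos (by omega) h2)

/-- RT-A8c. Few colourings have many edge-disjoint `K_4` with a red edge in `J`
(needs A5, A6). -/
theorem bad_c (t : ℕ) (ht : 10 ≤ t) :
    ({f : Sym2 (Fin (t ^ 40)) → Fin (30 * t ^ 20) |
        ∃ J : Finset (Fin (t ^ 40)), J.card = aT t ∧ ∃ D : Finset (Finset (Fin (t ^ 40))),
          D.card = 10 * ell t * aT t ∧ EdgeDisj D ∧
          ∀ K ∈ D, (colGraph f (30 * t)).IsNClique 4 K ∧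
            ∃ e ∈ pairsOf K K, e ∈ pairsOf J J ∧ (f e).val < 1}.ncard : ℝ)
      < ((30 * t ^ 20 : ℕ) : ℝ) ^ Fintype.card (Sym2 (Fin (t ^ 40))) / 5 := by
  classical
  have htpos : 0 < t := by omega
  have hl := bad_c_ell_pos t
  have ha := bad_c_aT_pos ht
  have hQ : 0 < 30 * t ^ 20 := by positivity
  have hq : 30 * t ≤ 30 * t ^ 20 := by
    apply Nat.mul_le_mul_left
    calc t = t ^ 1 := (pow_one t).symm
      _ ≤ t ^ 20 := Nat.pow_le_pow_right htpos (by norm_num)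
  have hT : 0 < 10 * ell t * aT t := by positivity
  set M : ℝ := ((30 * t ^ 20 : ℕ) : ℝ) ^ Fintype.card (Sym2 (Fin (t ^ 40))) with hM
  have hM0 : 0 < M := by
    have : (0 : ℝ) < ((30 * t ^ 20 : ℕ) : ℝ) := by exact_mod_cast hQ
    positivity
  set A : Finset (Fin (t ^ 40)) → Set (Sym2 (Fin (t ^ 40)) → Fin (30 * t ^ 20)) := fun J =>
    {f | ∃ D : Finset (Finset (Fin (t ^ 40))),
      D.card = 10 * ell t * aT t ∧ EdgeDisj D ∧
        ∀ K ∈ D, (colGraph f (30 * t)).IsNClique 4 K ∧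
          ∃ e ∈ pairsOf K K, e ∈ pairsOf J J ∧ (f e).val < 1} with hA
  have hsub : {f : Sym2 (Fin (t ^ 40)) → Fin (30 * t ^ 20) |
        ∃ J : Finset (Fin (t ^ 40)), J.card = aT t ∧ ∃ D : Finset (Finset (Fin (t ^ 40))),
          D.card = 10 * ell t * aT t ∧ EdgeDisj D ∧
          ∀ K ∈ D, (colGraph f (30 * t)).IsNClique 4 K ∧
            ∃ e ∈ pairsOf K K, e ∈ pairsOf J J ∧ (f e).val < 1} ⊆
      ⋃ J ∈ powersetCard (aT t) (univ : Finset (Fin (t ^ 40))), A J := by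
    rintro f ⟨J, hJ, hD⟩
    rw [Set.mem_iUnion₂]
    exact ⟨J, by rw [mem_powersetCard]; exact ⟨subset_univ _, hJ⟩, hD⟩
  have h1 := (Set.ncard_le_ncard hsub (Set.toFinite _)).trans (bad_c_ncard_iUnion _ A)
  have h2 : ∀ J ∈ powersetCard (aT t) (univ : Finset (Fin (t ^ 40))),
      ((A J).ncard : ℝ) ≤ (1 / (t : ℝ) ^ 12) ^ (10 * ell t * aT t) * M := by
    intro J hJ
    rw [mem_powersetCard] at hJ
    have h3 := mark_bound (N := t ^ 40) hQ (30 * t) (by omega) hq (pairsOf J J)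
      (10 * ell t * aT t) hT
    refine h3.trans ?_
    apply mul_le_mul_of_nonneg_right _ hM0.le
    apply pow_le_pow_left₀
    · positivity
    · have h4 : (((pairsOf J J).card : ℕ) : ℝ) ≤ (aT t : ℝ) ^ 2 / 2 := by
        rw [pairsOf_self_card, hJ.2, Nat.cast_choose_two]
        have : (0 : ℝ) ≤ aT t := Nat.cast_nonneg _
        nlinarith
      exact bad_c_base t (aT t) (ell t) (pairsOf J J).card ht hl rfl h4
  have h3 : ((∑ J ∈ powersetCard (aT t) (univ : Finset (Fin (t ^ 40))), (A J).ncard : ℕ) : ℝ) ≤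
      ((t : ℝ) ^ 40) ^ aT t * ((1 / (t : ℝ) ^ 12) ^ (10 * ell t * aT t) * M) := by
    push_cast
    refine (Finset.sum_le_sum h2).trans ?_
    rw [Finset.sum_const, nsmul_eq_mul, card_powersetCard, card_univ, Fintype.card_fin]
    apply mul_le_mul_of_nonneg_right _ (by positivity)
    have h5 : (t ^ 40).choose (aT t) ≤ (t ^ 40) ^ aT t := Nat.choose_le_pow _ _
    exact_mod_cast h5
  have ht1 : (10 : ℝ) ≤ t := by exact_mod_cast ht
  have ht0 : (0 : ℝ) < t := by linarith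
  have h4 : ((t : ℝ) ^ 40) ^ aT t * (1 / (t : ℝ) ^ 12) ^ (10 * ell t * aT t) ≤ 1 / 10 := by
    rw [← pow_mul, one_div, inv_pow, ← pow_mul, mul_inv_le_iff₀ (by positivity)]
    have h5 : 40 * aT t + 1 ≤ 12 * (10 * ell t * aT t) := by nlinarith
    have h6 : (t : ℝ) ^ (40 * aT t + 1) ≤ (t : ℝ) ^ (12 * (10 * ell t * aT t)) :=
      pow_le_pow_right₀ (by linarith) h5
    rw [pow_succ] at h6
    have h7 : 0 < (t : ℝ) ^ (40 * aT t) := by positivity
    nlinarith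
  have h5 : (({f : Sym2 (Fin (t ^ 40)) → Fin (30 * t ^ 20) |
        ∃ J : Finset (Fin (t ^ 40)), J.card = aT t ∧ ∃ D : Finset (Finset (Fin (t ^ 40))),
          D.card = 10 * ell t * aT t ∧ EdgeDisj D ∧
          ∀ K ∈ D, (colGraph f (30 * t)).IsNClique 4 K ∧
            ∃ e ∈ pairsOf K K, e ∈ pairsOf J J ∧ (f e).val < 1}.ncard : ℕ) : ℝ) ≤
      ((t : ℝ) ^ 40) ^ aT t * ((1 / (t : ℝ) ^ 12) ^ (10 * ell t * aT t) * M) :=
    (Nat.cast_le.2 h1).trans h3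
  refine lt_of_le_of_lt h5 ?_
  rw [← mul_assoc]
  calc ((t : ℝ) ^ 40) ^ aT t * (1 / (t : ℝ) ^ 12) ^ (10 * ell t * aT t) * M ≤ 1 / 10 * M :=
        mul_le_mul_of_nonneg_right h4 hM0.le
    _ < M / 5 := by linarith

end Pool.Agent.Helper73.RT
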